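import Pool.Agent.Q266.RP.Stm
import Pool.Agent.Q178.RP.Proj

/-!
# Project RP (helper266), job EIG: eigenspaces of `ρ e` (Clifford theory for index `p`)
-/

set_option autoImplicit false

namespace Pool.Agent.Q295.RP

open Module Pool.Agent.Q266.RP

section
variable {G V : Type} [Group G] [AddCommGroup V] [Module ℂ V]

theorem rho_pow (ρ : Representation ℂ G V) (z : G) (ω : ℂ) (hω : ∀ v, ρ z v = ω • v) (n : ℕ) (v : V) :
    ρ (z ^ n) v = ω ^ n • v := by
  induction n with
  | zero => simp
  | succ n ih =>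
    rw [pow_succ, map_mul, Module.End.mul_apply, hω, map_smul, ih, smul_smul, pow_succ']

theorem rho_mul (ρ : Representation ℂ G V) (a b : G) (v : V) : ρ (a * b) v = ρ a (ρ b v) := by
  rw [map_mul, Module.End.mul_apply]

theorem rho_inj (ρ : Representation ℂ G V) (a : G) : Function.Injective (ρ a) := by
  intro v w h
  have h1 : ρ a⁻¹ (ρ a v) = ρ a⁻¹ (ρ a w) := by rw [h]
  rw [← rho_mul, ← rho_mul, inv_mul_cancel, map_one] at h1
  exact h1

/-- if `h⁻¹ e h = e z ^ n` then `ρ h` shifts the eigenvalue by `ω ^ n` -/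
theorem shift (ρ : Representation ℂ G V) (e z h : G) (ω μ : ℂ) (hω : ∀ v, ρ z v = ω • v) (n : ℕ)
    (hn : h⁻¹ * e * h = e * z ^ n) (v : V) (hv : ρ e v = μ • v) :
    ρ e (ρ h v) = (μ * ω ^ n) • ρ h v := by
  have h1 : e * h = h * (e * z ^ n) := by rw [← hn]; group
  rw [← rho_mul, h1, rho_mul, rho_mul, rho_pow ρ z ω hω, map_smul, hv, smul_smul, map_smul, mul_comm]

end

/-- job EIG -/
theorem eig : S_EIG := by
  intro p hp G V _ _ _ _ _ ρ hirr e z hpair ω hω hω1
  obtain ⟨hep, hec, hzc, hzo, hconj⟩ := hpair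
  obtain ⟨hnt, hirr⟩ := hirr
  have hp0 : p ≠ 0 := hp.out.ne_zero
  have : NeZero p := ⟨hp0⟩
  have hzp : z ^ p = 1 := by rw [← hzo]; exact pow_orderOf_eq_one z
  obtain ⟨v₀, hv₀⟩ := exists_ne (0 : V)
  have hωp : ω ^ p = 1 := by
    have h1 := rho_pow ρ z ω hω p v₀
    rw [hzp, map_one, Module.End.one_apply] at h1
    have h2 : (ω ^ p - 1) • v₀ = 0 := by rw [sub_smul, one_smul, ← h1, sub_self]
    rcases smul_eq_zero.mp h2 with h | h
    · exact sub_eq_zero.mp h
    · exact absurd h hv₀
  have hprim : IsPrimitiveRoot ω p := by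
    have h1 : orderOf ω = p := orderOf_eq_prime hωp hω1
    rw [← h1]
    exact IsPrimitiveRoot.orderOf ω
  have hω0 : ω ≠ 0 := hprim.ne_zero hp0
  have hTp : (ρ e) ^ p = 1 := by rw [← map_pow, hep, map_one]
  obtain ⟨π, hπ1, hπ2, hπ3, hπ4⟩ := Pool.Agent.Q178.RP.proj p V (ρ e) ω hprim hTp
  -- nontrivial powers of z
  have hzn : ∀ n : ℕ, z ^ n ≠ 1 → n.Coprime p := by
    intro n hn
    rw [Nat.coprime_comm, Nat.Prime.coprime_iff_not_dvd hp.out]
    intro hdvd
    apply hn
    rw [← hzo] at hdvd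
    exact orderOf_dvd_iff_pow_eq_one.mp hdvd
  let W : Fin p → Submodule ℂ V := fun j => Module.End.eigenspace (ρ e) (ω ^ (j : ℕ))
  have hW : ∀ (j : Fin p) (v : V), v ∈ W j ↔ ρ e v = ω ^ (j : ℕ) • v := fun j v =>
    Module.End.mem_eigenspace_iff
  have hsum : ∀ v : V, ∑ j, π j v = v := by
    intro v
    have h1 : (∑ j, π j) v = (1 : End ℂ V) v := by rw [hπ1]
    rwa [LinearMap.sum_apply, Module.End.one_apply] at h1
  have hπW : ∀ (j : Fin p) (v : V), π j v ∈ W j := fun j v => (hW j _).mpr (hπ2 j v)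
  have hinj : Function.Injective (fun j : Fin p => ω ^ (j : ℕ)) := by
    intro j k h
    exact Fin.ext (hprim.pow_inj j.2 k.2 h)
  have hint : DirectSum.IsInternal W := by
    apply DirectSum.isInternal_submodule_of_iSupIndep_of_iSup_eq_top
    · exact (Module.End.eigenspaces_iSupIndep (ρ e)).comp hinj
    · rw [eq_top_iff]
      intro v _
      rw [← hsum v]
      exact Submodule.sum_mem _ fun j _ => Submodule.mem_iSup_of_mem j (hπW j v)
  have hfin : finrank ℂ V = ∑ j, finrank ℂ (W j) := by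
    have h1 := (LinearEquiv.ofBijective (DirectSum.coeLinearMap W) hint).finrank_eq
    rw [← h1, Module.finrank_directSum]
  -- an element that does not commute with e
  obtain ⟨h, n₀, hn₀, hn₀c⟩ : ∃ (h : G) (n : ℕ), h⁻¹ * e * h = e * z ^ n ∧ n.Coprime p := by
    by_contra hcon
    apply hec
    rw [Subgroup.mem_center_iff]
    intro g
    obtain ⟨n, hn⟩ := hconj g
    have h1 : (g⁻¹)⁻¹ * e * g⁻¹ = e * z ^ n := by rw [inv_inv]; exact hn
    by_cases hz : z ^ n = 1
    · rw [hz, mul_one] at hn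
      calc g * e = (g * e * g⁻¹) * g := by group
        _ = e * g := by rw [hn]
    · exact absurd ⟨g⁻¹, n, h1, hzn n hz⟩ hcon
  have hiter : ∀ (i : ℕ) (μ : ℂ) (v : V), ρ e v = μ • v →
      ρ e (ρ (h ^ i) v) = (μ * (ω ^ n₀) ^ i) • ρ (h ^ i) v := by
    intro i
    induction i with
    | zero =>
      intro μ v hv
      simpa using hv
    | succ i ih =>
      intro μ v hv
      have h1 := ih (μ * ω ^ n₀) (ρ h v) (shift ρ e z h ω μ hω n₀ hn₀ v hv)
      have h2 : ρ (h ^ (i + 1)) v = ρ (h ^ i) (ρ h v) := by rw [pow_succ, rho_mul]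
      rw [h2, h1]
      congr 1
      rw [pow_succ' (ω ^ n₀) i]
      ring
  have hle : ∀ j k : Fin p, finrank ℂ (W j) ≤ finrank ℂ (W k) := by
    intro j k
    have h1 : IsPrimitiveRoot (ω ^ n₀) p := hprim.pow_of_coprime n₀ hn₀c
    have h2 : (ω ^ (k : ℕ) * (ω ^ (j : ℕ))⁻¹) ^ p = 1 := by
      rw [mul_pow, inv_pow, ← pow_mul, ← pow_mul, mul_comm (k : ℕ), mul_comm (j : ℕ), pow_mul, pow_mul,
        hωp, one_pow, one_pow, inv_one, mul_one]
    obtain ⟨i, -, hi⟩ := h1.eq_pow_of_pow_eq_one h2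
    have h3 : ∀ v ∈ W j, ρ (h ^ i) v ∈ W k := by
      intro v hv
      rw [hW] at hv ⊢
      rw [hiter i _ v hv, hi]
      congr 1
      have h4 : ω ^ (j : ℕ) ≠ 0 := pow_ne_zero _ hω0
      field_simp
    refine LinearMap.finrank_le_finrank_of_injective (f := (ρ (h ^ i)).restrict h3) ?_
    intro a b hab
    have h4 : ρ (h ^ i) (a : V) = ρ (h ^ i) (b : V) := congrArg Subtype.val hab
    exact Subtype.ext (rho_inj ρ _ h4)
  have hdim : ∀ j, finrank ℂ V = p * finrank ℂ (W j) := by
    intro j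
    rw [hfin, Finset.sum_congr rfl fun k _ => le_antisymm (hle k j) (hle j k), Finset.sum_const,
      Finset.card_univ, Fintype.card_fin, smul_eq_mul]
  have hbot : ∀ j, W j ≠ ⊥ := by
    intro j hj
    have h1 := hdim j
    rw [hj, finrank_bot, mul_zero] at h1
    have h2 : 0 < finrank ℂ V := Module.finrank_pos
    omega
  -- invariance under the centralizer
  have hinv : ∀ j, ∀ c ∈ Subgroup.centralizer ({e} : Set G), ∀ w ∈ W j, ρ c w ∈ W j := by
    intro j c hc w hw
    rw [Subgroup.mem_centralizer_singleton_iff] at hc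
    rw [hW] at hw ⊢
    rw [← rho_mul, ← hc, rho_mul, hw, map_smul]
  refine ⟨W, hint, hinv, hdim, hbot, ?_, ?_⟩
  · intro j U hUW hU
    let U' : Submodule ℂ V := ⨆ g : G, U.map (ρ g)
    have hU'inv : ∀ g : G, ∀ w ∈ U', ρ g w ∈ U' := by
      intro g w hw
      have h1 : U'.map (ρ g) ≤ U' := by
        show (⨆ g' : G, U.map (ρ g')).map (ρ g) ≤ U'
        rw [Submodule.map_iSup]
        apply iSup_le
        intro g'
        have h2 : (U.map (ρ g')).map (ρ g) = U.map (ρ (g * g')) := by
          rw [map_mul, Module.End.mul_eq_comp, Submodule.map_comp]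
        rw [h2]
        exact le_iSup (fun g' : G => U.map (ρ g')) (g * g')
      exact h1 (Submodule.mem_map_of_mem hw)
    have hUU' : U ≤ U' := by
      have h1 : U.map (ρ 1) ≤ U' := le_iSup (fun g' : G => U.map (ρ g')) 1
      intro u hu
      have h2 := h1 (Submodule.mem_map_of_mem hu)
      rwa [map_one, Module.End.one_apply] at h2
    rcases hirr U' hU'inv with h1 | h1
    · left
      rw [h1] at hUU'
      exact le_bot_iff.mp hUU'
    · right
      apply le_antisymm hUW
      have h2 : U' ≤ U.comap (π j) := by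
        apply iSup_le
        intro g
        rw [Submodule.map_le_iff_le_comap]
        intro u hu
        show π j (ρ g u) ∈ U
        have hu' : ρ e u = ω ^ (j : ℕ) • u := (hW j u).mp (hUW hu)
        obtain ⟨n, hn⟩ := hconj g⁻¹
        rw [inv_inv] at hn
        by_cases hz : z ^ n = 1
        · rw [hz, mul_one] at hn
          have h3 : g ∈ Subgroup.centralizer ({e} : Set G) := by
            rw [Subgroup.mem_centralizer_singleton_iff]
            calc g * e = g * (g⁻¹ * e * g) := by rw [hn]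
              _ = e * g := by group
          have h4 : ρ g u ∈ U := hU g h3 u hu
          have h5 : ρ e (ρ g u) = ω ^ (j : ℕ) • ρ g u := (hW j _).mp (hUW h4)
          rw [hπ3 j j _ h5, if_pos rfl]
          exact h4
        · have h3 := shift ρ e z g ω _ hω n hn u hu'
          have h4 : (ω ^ (j : ℕ) * ω ^ n) ^ p = 1 := by
            rw [← pow_add, ← pow_mul, mul_comm, pow_mul, hωp, one_pow]
          obtain ⟨k, hk, hk2⟩ := hprim.eq_pow_of_pow_eq_one h4
          rw [← hk2] at h3
          have h5 : j ≠ (⟨k, hk⟩ : Fin p) := by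
            intro h6
            have h7 : (j : ℕ) = k := congrArg Fin.val h6
            rw [h7] at hk2
            have h8 : ω ^ n = 1 := by
              have h9 : ω ^ k * ω ^ n = ω ^ k * 1 := by rw [← hk2, mul_one]
              exact mul_left_cancel₀ (pow_ne_zero _ hω0) h9
            have h9 : p ∣ n := hprim.dvd_of_pow_eq_one n h8
            apply hz
            rw [← hzo] at h9
            exact orderOf_dvd_iff_pow_eq_one.mp h9
          rw [hπ3 j ⟨k, hk⟩ _ h3, if_neg h5]
          exact U.zero_mem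
      intro w hw
      have h3 : π j w ∈ U := h2 (by rw [h1]; exact Submodule.mem_top)
      rwa [hπ3 j j w ((hW j w).mp hw), if_pos rfl] at h3
  · intro j
    refine ⟨p - j, ?_⟩
    intro w hw
    rw [rho_mul, rho_pow ρ z ω hω, map_smul, (hW j w).mp hw, smul_smul, ← pow_add,
      Nat.sub_add_cancel j.2.le, hωp, one_smul]

end Pool.Agent.Q295.RP
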